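import Pool.Agent.Helper33.HM.RDefs

/-!
# From the Cantor space to the unit interval

HM-Z2: the value of the sentence in `Prop` implies the statement for the unit interval.
-/

set_option autoImplicit false

namespace Pool.Agent.Helper33.HM

open MeasureTheory Set

noncomputable section

open Classical in
/-- The digit of a proposition. -/
def h51c (p : Prop) : ℝ := if p then 1 else 0

/-- The real number with binary digits `x`. -/
def h51beta (x : ℕ → Prop) : ℝ := ∑' i : ℕ, h51c (x i) * (1 / 2 : ℝ) ^ (i + 1)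

/-- The left end point of the dyadic interval of a word. -/
def h51v : List Bool → ℝ
  | [] => 0
  | b :: σ => ((if b then 1 else 0) + h51v σ) / 2

/-- The length of the dyadic interval of a word. -/
def h51l (σ : List Bool) : ℝ := (1 / 2 : ℝ) ^ σ.length

/-- The closed dyadic interval of a word. -/
def h51I (σ : List Bool) : Set ℝ := Icc (h51v σ) (h51v σ + h51l σ)

theorem h51l_pos (σ : List Bool) : 0 < h51l σ := by unfold h51l; positivity

theorem h51l_cons (b : Bool) (σ : List Bool) : h51l (b :: σ) = h51l σ / 2 := by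
  unfold h51l
  rw [List.length_cons, pow_succ]
  ring

theorem h51v_nonneg (σ : List Bool) : 0 ≤ h51v σ := by
  induction σ with
  | nil => simp [h51v]
  | cons b σ ih =>
    unfold h51v
    split_ifs <;> linarith

theorem h51v_le (σ : List Bool) : h51v σ + h51l σ ≤ 1 := by
  induction σ with
  | nil => simp [h51v, h51l]
  | cons b σ ih =>
    rw [h51l_cons]
    unfold h51v
    split_ifs <;> linarith

theorem h51c_mem (p : Prop) : 0 ≤ h51c p ∧ h51c p ≤ 1 := by
  unfold h51c; split_ifs <;> norm_num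

theorem h51_summable (x : ℕ → Prop) : Summable fun i : ℕ => h51c (x i) * (1 / 2 : ℝ) ^ (i + 1) := by
  refine Summable.of_nonneg_of_le (fun i => ?_) (fun i => ?_)
    ((summable_geometric_of_lt_one (by norm_num) (by norm_num : (1 / 2 : ℝ) < 1)))
  · exact mul_nonneg (h51c_mem _).1 (by positivity)
  · have h1 := (h51c_mem (x i)).2
    have h0 := (h51c_mem (x i)).1
    have h2 : (0 : ℝ) < (1 / 2 : ℝ) ^ i := by positivity
    rw [pow_succ]
    nlinarith

theorem h51beta_succ (x : ℕ → Prop) :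
    h51beta x = (h51c (x 0) + h51beta fun i => x (i + 1)) / 2 := by
  unfold h51beta
  rw [(h51_summable x).tsum_eq_zero_add]
  have : (∑' b : ℕ, h51c (x (b + 1)) * (1 / 2 : ℝ) ^ (b + 1 + 1)) =
      (∑' b : ℕ, h51c (x (b + 1)) * (1 / 2 : ℝ) ^ (b + 1)) * (1 / 2) := by
    rw [← tsum_mul_right]
    refine tsum_congr fun b => ?_
    rw [pow_succ]
    ring
  rw [this]
  ring

theorem h51beta_nonneg (x : ℕ → Prop) : 0 ≤ h51beta x :=
  tsum_nonneg fun i => mul_nonneg (h51c_mem _).1 (by positivity)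

theorem h51beta_le (x : ℕ → Prop) : h51beta x ≤ 1 := by
  unfold h51beta
  have hs : Summable fun i : ℕ => (1 / 2 : ℝ) ^ (i + 1) :=
    (summable_nat_add_iff 1).2 (summable_geometric_of_lt_one (by norm_num) (by norm_num))
  have h : ∑' i : ℕ, (1 / 2 : ℝ) ^ (i + 1) = 1 := by
    have := tsum_geometric_of_lt_one (by norm_num : (0 : ℝ) ≤ 1 / 2) (by norm_num)
    have h2 : ∑' i : ℕ, (1 / 2 : ℝ) ^ (i + 1) = (∑' i : ℕ, (1 / 2 : ℝ) ^ i) * (1 / 2) := by
      rw [← tsum_mul_right]
      exact tsum_congr fun b => pow_succ _ _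
    rw [h2, this]
    norm_num
  refine le_trans ((h51_summable x).tsum_le_tsum (fun i => ?_) hs) h.le
  have h1 := (h51c_mem (x i)).2
  have h2 : (0 : ℝ) < (1 / 2 : ℝ) ^ (i + 1) := by positivity
  nlinarith

/-! ### Words and points -/

theorem h51_cyl_iff (x : ℕ → Prop) (σ : List Bool) :
    cyl x σ ↔ ∀ (i : ℕ) (h : i < σ.length), (x i ↔ σ[i] = true) := by
  unfold cyl
  simp only [iInf_Prop_eq]
  refine forall_congr' fun i => forall_congr' fun h => ?_
  cases hb : σ[i]
  · simp
  · simp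

theorem h51_cyl_cons (x : ℕ → Prop) (b : Bool) (σ : List Bool) :
    cyl x (b :: σ) ↔ (x 0 ↔ b = true) ∧ cyl (fun i => x (i + 1)) σ := by
  rw [h51_cyl_iff, h51_cyl_iff]
  constructor
  · intro h
    exact ⟨h 0 (by simp), fun i hi => h (i + 1) (by simpa using hi)⟩
  · rintro ⟨h0, h⟩ i hi
    cases i with
    | zero => exact h0
    | succ i => exact h i (by simpa using hi)

theorem h51_cyl_nil (x : ℕ → Prop) : cyl x [] := by
  rw [h51_cyl_iff]
  intro i hi
  simp at hi

theorem h51_cyl_snoc (x : ℕ → Prop) (σ : List Bool) (b : Bool) :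
    cyl x (σ ++ [b]) ↔ cyl x σ ∧ (x σ.length ↔ b = true) := by
  induction σ generalizing x with
  | nil =>
    rw [List.nil_append, h51_cyl_cons]
    simp [h51_cyl_nil]
  | cons a σ ih =>
    rw [List.cons_append, h51_cyl_cons, ih, h51_cyl_cons, List.length_cons, and_assoc]

theorem h51_mem_I {x : ℕ → Prop} {σ : List Bool} (h : cyl x σ) : h51beta x ∈ h51I σ := by
  induction σ generalizing x with
  | nil =>
    have h1 := h51beta_nonneg x
    have h2 := h51beta_le x
    simp only [h51I, h51v, h51l, List.length_nil, pow_zero, zero_add, mem_Icc]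
    exact ⟨h1, h2⟩
  | cons b σ ih =>
    rw [h51_cyl_cons] at h
    have := ih h.2
    simp only [h51I, mem_Icc] at this ⊢
    rw [h51beta_succ, h51l_cons]
    unfold h51v
    have hc : h51c (x 0) = if b then 1 else 0 := by
      unfold h51c
      simp only [h.1]
    rw [hc]
    constructor <;> linarith [this.1, this.2]

theorem h51_surj {y : ℝ} (hy : y ∈ Icc (0 : ℝ) 1) : ∃ x : ℕ → Prop, h51beta x = y := by
  let z : ℕ → ℝ := fun n => Nat.rec y (fun _ t => 2 * t - h51c (1 / 2 ≤ t)) n
  have hz0 : z 0 = y := rfl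
  have hz1 : ∀ n, z (n + 1) = 2 * z n - h51c (1 / 2 ≤ z n) := fun n => rfl
  have hz : ∀ n, z n ∈ Icc (0 : ℝ) 1 := by
    intro n
    induction n with
    | zero => exact hy
    | succ n ih =>
      rw [hz1]
      simp only [mem_Icc] at ih ⊢
      rcases Classical.em ((1 / 2 : ℝ) ≤ z n) with h | h
      · have hc : h51c (1 / 2 ≤ z n) = 1 := by
          unfold h51c
          exact if_pos h
        rw [hc]
        constructor <;> linarith [ih.1, ih.2]
      · have hc : h51c (1 / 2 ≤ z n) = 0 := by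
          unfold h51c
          exact if_neg h
        rw [hc]
        push Not at h
        constructor <;> linarith [ih.1, ih.2]
  refine ⟨fun n => 1 / 2 ≤ z n, ?_⟩
  have hs := h51_summable fun n => 1 / 2 ≤ z n
  have hpart : ∀ n, ∑ i ∈ Finset.range n, h51c (1 / 2 ≤ z i) * (1 / 2 : ℝ) ^ (i + 1) =
      y - (1 / 2 : ℝ) ^ n * z n := by
    intro n
    induction n with
    | zero => simp [hz0]
    | succ n ih =>
      rw [Finset.sum_range_succ, ih, hz1, pow_succ]
      ring
  have h1 := hs.hasSum.tendsto_sum_nat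
  have h2 : Filter.Tendsto (fun n => ∑ i ∈ Finset.range n, h51c (1 / 2 ≤ z i) *
      (1 / 2 : ℝ) ^ (i + 1)) Filter.atTop (nhds y) := by
    simp only [hpart]
    have h3 : Filter.Tendsto (fun n => (1 / 2 : ℝ) ^ n * z n) Filter.atTop (nhds 0) := by
      refine squeeze_zero (fun n => mul_nonneg (by positivity) (hz n).1)
        (fun n => ?_) (tendsto_pow_atTop_nhds_zero_of_lt_one (r := (1 / 2 : ℝ)) (by norm_num)
          (by norm_num))
      have : (0 : ℝ) < (1 / 2 : ℝ) ^ n := by positivity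
      nlinarith [(hz n).2]
    simpa using h3.const_sub y
  exact tendsto_nhds_unique h1 h2

theorem h51_v_append (σ τ : List Bool) : h51v (σ ++ τ) = h51v σ + h51l σ * h51v τ := by
  induction σ with
  | nil => simp [h51v, h51l]
  | cons b σ ih =>
    rw [List.cons_append, h51l_cons]
    simp only [h51v]
    rw [ih]
    ring

theorem h51_l_append (σ τ : List Bool) : h51l (σ ++ τ) = h51l σ * h51l τ := by
  unfold h51l
  rw [List.length_append, pow_add]

theorem h51_I_mono {σ τ : List Bool} (h : σ <+: τ) : h51I τ ⊆ h51I σ := by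
  obtain ⟨ρ, rfl⟩ := h
  intro y hy
  simp only [h51I, mem_Icc] at hy ⊢
  rw [h51_v_append, h51_l_append] at hy
  have h1 := h51l_pos σ
  have h2 := h51v_nonneg ρ
  have h3 := h51v_le ρ
  constructor <;> nlinarith [hy.1, hy.2]

theorem h51_disj {σ τ : List Bool} (hl : σ.length = τ.length) (hne : σ ≠ τ) :
    h51v σ + h51l σ ≤ h51v τ ∨ h51v τ + h51l τ ≤ h51v σ := by
  induction σ generalizing τ with
  | nil =>
    cases τ with
    | nil => exact absurd rfl hne
    | cons b τ => simp at hl
  | cons a σ ih =>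
    cases τ with
    | nil => simp at hl
    | cons b τ =>
      rw [h51l_cons, h51l_cons]
      simp only [h51v]
      have hl' : σ.length = τ.length := by simpa using hl
      have h1 := h51v_nonneg σ
      have h2 := h51v_nonneg τ
      have h3 := h51v_le σ
      have h4 := h51v_le τ
      by_cases hab : a = b
      · subst hab
        have hne' : σ ≠ τ := fun h => hne (by rw [h])
        rcases ih hl' hne' with h | h
        · left; linarith
        · right; linarith
      · cases a <;> cases b <;> simp at hab ⊢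
        · left; linarith
        · right; linarith

theorem h51_I_closed (σ : List Bool) : IsClosed (h51I σ) := isClosed_Icc

theorem h51_volume_I (σ : List Bool) : volume (h51I σ) = ENNReal.ofReal (h51l σ) := by
  unfold h51I
  rw [Real.volume_Icc]
  congr 1
  ring

/-! ### The closed set of a set of words above a word -/

/-- The words of length `m` above `σ` in `T`. -/
def h51W (T : List Bool → Prop) (σ : List Bool) (m : ℕ) : Set (List Bool) :=
  {τ | τ.length = m ∧ σ <+: τ ∧ T τ}

/-- The union of the dyadic intervals of these words. -/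
def h51C (T : List Bool → Prop) (σ : List Bool) (m : ℕ) : Set ℝ :=
  ⋃ τ ∈ h51W T σ m, h51I τ

theorem h51W_finite (T : List Bool → Prop) (σ : List Bool) (m : ℕ) : (h51W T σ m).Finite :=
  (List.finite_length_eq Bool m).subset fun _ h => h.1

theorem h51C_closed (T : List Bool → Prop) (σ : List Bool) (m : ℕ) : IsClosed (h51C T σ m) :=
  (h51W_finite T σ m).isClosed_biUnion fun τ _ => h51_I_closed τ

theorem h51_pruned_iff (T : List Bool → Prop) :
    pruned T ↔ ∀ σ, T σ ↔ T (σ ++ [false]) ∨ T (σ ++ [true]) := by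
  unfold pruned iffV
  simp only [iInf_Prop_eq]
  refine forall_congr' fun σ => ?_
  constructor
  · intro h
    exact ⟨h.1, h.2⟩
  · intro h
    exact ⟨h.1, h.2⟩

theorem h51_prefix {T : List Bool → Prop} (hT : pruned T) {σ τ : List Bool} (h : σ <+: τ)
    (hτ : T τ) : T σ := by
  obtain ⟨ρ, rfl⟩ := h
  rw [h51_pruned_iff] at hT
  induction ρ using List.reverseRecOn with
  | nil => simpa using hτ
  | append_singleton ρ b ih =>
    apply ih
    rw [hT]
    rw [← List.append_assoc] at hτ
    cases b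
    · exact Or.inl hτ
    · exact Or.inr hτ

theorem h51C_anti {T : List Bool → Prop} (hT : pruned T) {σ : List Bool} {m n : ℕ}
    (hm : σ.length ≤ m) (h : m ≤ n) : h51C T σ n ⊆ h51C T σ m := by
  intro y hy
  simp only [h51C, mem_iUnion] at hy ⊢
  obtain ⟨τ, ⟨hl, hp, ht⟩, hy⟩ := hy
  have hpre : τ.take m <+: τ := List.take_prefix m τ
  refine ⟨τ.take m, ⟨?_, ?_, h51_prefix hT hpre ht⟩, h51_I_mono hpre hy⟩
  · rw [List.length_take]; omega
  · refine List.prefix_of_prefix_length_le hp hpre ?_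
    rw [List.length_take]; omega

theorem h51C_volume_ge (T : List Bool → Prop) (σ : List Bool) (m : ℕ) :
    ((h51W_finite T σ m).toFinset.card : ENNReal) * ENNReal.ofReal ((1 / 2 : ℝ) ^ m) ≤
      volume (h51C T σ m) := by
  set G := (h51W_finite T σ m).toFinset with hG
  have hGmem : ∀ τ ∈ G, τ ∈ h51W T σ m := fun τ h => by simpa [hG] using h
  have h1 : volume (⋃ τ ∈ G, Ico (h51v τ) (h51v τ + h51l τ)) =
      (G.card : ENNReal) * ENNReal.ofReal ((1 / 2 : ℝ) ^ m) := by
    rw [measure_biUnion_finset]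
    · have : ∀ τ ∈ G, volume (Ico (h51v τ) (h51v τ + h51l τ)) =
          ENNReal.ofReal ((1 / 2 : ℝ) ^ m) := by
        intro τ hτ
        rw [Real.volume_Ico]
        congr 1
        have := (hGmem τ hτ).1
        unfold h51l
        rw [this]
        ring
      rw [Finset.sum_congr rfl this, Finset.sum_const, nsmul_eq_mul]
    · intro τ hτ τ' hτ' hne
      have hl : τ.length = τ'.length := by
        rw [(hGmem τ hτ).1, (hGmem τ' hτ').1]
      simp only [Function.onFun]
      rw [Set.disjoint_left]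
      intro y hy hy'
      simp only [mem_Ico] at hy hy'
      rcases h51_disj hl hne with h | h <;> linarith [hy.1, hy.2, hy'.1, hy'.2]
    · intro τ _
      exact measurableSet_Ico
  rw [← h1]
  refine measure_mono ?_
  intro y hy
  simp only [mem_iUnion] at hy
  obtain ⟨τ, hτ, hy⟩ := hy
  simp only [h51C, mem_iUnion]
  exact ⟨τ, hGmem τ hτ, Ico_subset_Icc_self hy⟩

theorem h51_nullV_iff (T : List Bool → Prop) :
    nullV T ↔ ∀ k : ℕ, ∃ n : ℕ, ∃ G : Finset (List Bool), G.card * 2 ^ k ≤ 2 ^ n ∧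
      ∀ σ : List Bool, σ.length = n ∧ σ ∉ G → ¬ T σ := by
  unfold nullV
  simp only [iInf_Prop_eq, iSup_Prop_eq, exists_prop]
  rfl

/-- A pruned tree whose part above `σ` is not null gives a set of positive measure. -/
theorem h51_pos {T : List Bool → Prop} (hT : pruned T) {σ : List Bool} (hσ : T σ)
    (hnn : ¬ nullV (restr T σ)) : volume (⋂ j : ℕ, h51C T σ (σ.length + j)) ≠ 0 := by
  intro h0
  apply hnn
  rw [h51_nullV_iff]
  intro k
  have hanti : Antitone fun j : ℕ => h51C T σ (σ.length + j) := by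
    intro i j hij
    exact h51C_anti hT (by omega) (by omega)
  have htend := tendsto_measure_iInter_atTop (μ := (volume : Measure ℝ))
    (s := fun j : ℕ => h51C T σ (σ.length + j))
    (fun j => (h51C_closed T σ _).measurableSet.nullMeasurableSet) hanti
    ⟨0, by
      refine ne_of_lt (lt_of_le_of_lt (measure_mono (t := Icc (0 : ℝ) 1) ?_) ?_)
      · intro y hy
        simp only [h51C, mem_iUnion] at hy
        obtain ⟨τ, _, hy⟩ := hy
        simp only [h51I, mem_Icc] at hy ⊢
        constructor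
        · linarith [hy.1, h51v_nonneg τ]
        · linarith [hy.2, h51v_le τ]
      · rw [Real.volume_Icc]
        exact ENNReal.ofReal_lt_top⟩
  rw [h0] at htend
  have hpos : (0 : ENNReal) < ENNReal.ofReal ((1 / 2 : ℝ) ^ k) := by
    rw [ENNReal.ofReal_pos]; positivity
  obtain ⟨j, hj⟩ := (htend.eventually (gt_mem_nhds hpos)).exists
  have hge := h51C_volume_ge T σ (σ.length + j)
  refine ⟨σ.length + j, (h51W_finite T σ (σ.length + j)).toFinset, ?_, ?_⟩
  · set N := (h51W_finite T σ (σ.length + j)).toFinset.card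
    have h1 : (N : ENNReal) * ENNReal.ofReal ((1 / 2 : ℝ) ^ (σ.length + j)) ≤
        ENNReal.ofReal ((1 / 2 : ℝ) ^ k) := hge.trans hj.le
    rw [← ENNReal.ofReal_natCast, ← ENNReal.ofReal_mul (by positivity)] at h1
    rw [ENNReal.ofReal_le_ofReal_iff (by positivity)] at h1
    have h2 : (N : ℝ) * 2 ^ k ≤ 2 ^ (σ.length + j) := by
      have e1 : ((1 / 2 : ℝ) ^ (σ.length + j)) * 2 ^ (σ.length + j) = 1 := by
        rw [← mul_pow]; norm_num
      have e2 : ((1 / 2 : ℝ) ^ k) * 2 ^ k = 1 := by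
        rw [← mul_pow]; norm_num
      have p1 : (0 : ℝ) < 2 ^ (σ.length + j) := by positivity
      have p2 : (0 : ℝ) < 2 ^ k := by positivity
      calc (N : ℝ) * 2 ^ k
          = ((N : ℝ) * (1 / 2 : ℝ) ^ (σ.length + j)) * (2 ^ (σ.length + j) * 2 ^ k) := by
            rw [show ((N : ℝ) * (1 / 2 : ℝ) ^ (σ.length + j)) * (2 ^ (σ.length + j) * 2 ^ k) =
              (N : ℝ) * 2 ^ k * (((1 / 2 : ℝ) ^ (σ.length + j)) * 2 ^ (σ.length + j)) by ring,
              e1, mul_one]
        _ ≤ ((1 / 2 : ℝ) ^ k) * (2 ^ (σ.length + j) * 2 ^ k) := by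
            refine mul_le_mul_of_nonneg_right h1 (by positivity)
        _ = 2 ^ (σ.length + j) * (((1 / 2 : ℝ) ^ k) * 2 ^ k) := by ring
        _ = 2 ^ (σ.length + j) := by rw [e2, mul_one]
    exact_mod_cast h2
  · rintro τ ⟨hl, hG⟩ hres
    simp only [Finite.mem_toFinset] at hG
    unfold restr at hres
    split_ifs at hres with hp hq
    · have : τ = σ := by
        refine List.IsPrefix.eq_of_length_le hp ?_
        omega
      subst this
      exact hG ⟨hl, List.prefix_refl _, hσ⟩
    · exact hG ⟨hl, hq, hres⟩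
    · exact hres

/-! ### The pull back -/

/-- The closed set of reals of a tree. -/
def h51K (T : List Bool → Prop) : Set ℝ := ⋂ m : ℕ, h51C T [] m

theorem h51K_closed (T : List Bool → Prop) : IsClosed (h51K T) :=
  isClosed_iInter fun m => h51C_closed T [] m

theorem h51K_subset (T : List Bool → Prop) : h51K T ⊆ Icc (0 : ℝ) 1 := by
  intro y hy
  have := mem_iInter.1 hy 0
  simp only [h51C, mem_iUnion] at this
  obtain ⟨τ, _, hy⟩ := this
  simp only [h51I, mem_Icc] at hy ⊢
  constructor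
  · linarith [hy.1, h51v_nonneg τ]
  · linarith [hy.2, h51v_le τ]

theorem h51_iInter_subset {T : List Bool → Prop} (hT : pruned T) (σ : List Bool) :
    ⋂ j : ℕ, h51C T σ (σ.length + j) ⊆ h51K T ∩ h51I σ := by
  intro y hy
  have h0 := mem_iInter.1 hy 0
  simp only [h51C, mem_iUnion] at h0
  obtain ⟨τ, ⟨hl, hp, ht⟩, hyτ⟩ := h0
  refine ⟨?_, h51_I_mono hp hyτ⟩
  refine mem_iInter.2 fun m => ?_
  by_cases hm : σ.length ≤ m
  · have hj := mem_iInter.1 hy (m - σ.length)
    have e : σ.length + (m - σ.length) = m := by omega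
    rw [e] at hj
    simp only [h51C, mem_iUnion] at hj ⊢
    obtain ⟨ρ, ⟨hl', _, ht'⟩, hyρ⟩ := hj
    exact ⟨ρ, ⟨hl', List.nil_prefix, ht'⟩, hyρ⟩
  · push Not at hm
    have hpre : τ.take m <+: τ := List.take_prefix m τ
    simp only [h51C, mem_iUnion]
    refine ⟨τ.take m, ⟨?_, List.nil_prefix, h51_prefix hT hpre ht⟩, h51_I_mono hpre hyτ⟩
    rw [List.length_take]; omega

theorem h51_fat {T : List Bool → Prop} (hT : fat T) : pruned T ∧
    ∀ σ, T σ → ¬ nullV (restr T σ) := by
  unfold fat at hT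
  simp only [iInf_Prop_eq] at hT
  exact ⟨hT.1, hT.2⟩

theorem h51_volume_pos {T : List Bool → Prop} (hT : fat T) {σ : List Bool} (hσ : T σ) :
    volume (h51K T ∩ h51I σ) ≠ 0 := by
  intro h0
  obtain ⟨hp, hf⟩ := h51_fat hT
  exact h51_pos hp hσ (hf σ hσ) (measure_mono_null (h51_iInter_subset hp σ) h0)

theorem h51_I_diam {σ : List Bool} {x y : ℝ} (hx : x ∈ h51I σ) (hy : y ∈ h51I σ) :
    |x - y| ≤ (1 / 2 : ℝ) ^ σ.length := by
  simp only [h51I, mem_Icc, h51l] at hx hy
  rw [abs_le]
  constructor <;> linarith [hx.1, hx.2, hy.1, hy.2]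

theorem h51_fatR {T : List Bool → Prop} (hT : fat T) : FatR (h51K T) := by
  refine ⟨h51K_closed T, h51K_subset T, ?_⟩
  rintro U hU ⟨y, hyK, hyU⟩
  obtain ⟨ε, hε, hball⟩ := Metric.isOpen_iff.1 hU y hyU
  obtain ⟨m, hm⟩ := exists_pow_lt_of_lt_one hε (by norm_num : (1 / 2 : ℝ) < 1)
  have := mem_iInter.1 hyK m
  simp only [h51C, mem_iUnion] at this
  obtain ⟨τ, ⟨hl, _, ht⟩, hyτ⟩ := this
  intro h0
  refine h51_volume_pos hT ht (measure_mono_null ?_ h0)
  rintro z ⟨hzK, hzτ⟩
  refine ⟨hzK, hball ?_⟩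
  rw [Metric.mem_ball, Real.dist_eq]
  have := h51_I_diam hzτ hyτ
  rw [hl] at this
  exact lt_of_le_of_lt this hm

/-- The tree of the preimage of a set of reals. -/
def h51F (F : Set ℝ) (σ : List Bool) : Prop := ∃ x : ℕ → Prop, cyl x σ ∧ h51beta x ∈ F

theorem h51F_pruned (F : Set ℝ) : pruned (h51F F) := by
  rw [h51_pruned_iff]
  intro σ
  constructor
  · rintro ⟨x, hx, hF⟩
    by_cases h : x σ.length
    · exact Or.inr ⟨x, (h51_cyl_snoc x σ true).2 ⟨hx, by simp [h]⟩, hF⟩
    · exact Or.inl ⟨x, (h51_cyl_snoc x σ false).2 ⟨hx, by simp [h]⟩, hF⟩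
  · rintro (⟨x, hx, hF⟩ | ⟨x, hx, hF⟩)
    · exact ⟨x, ((h51_cyl_snoc x σ false).1 hx).1, hF⟩
    · exact ⟨x, ((h51_cyl_snoc x σ true).1 hx).1, hF⟩

theorem h51_nwd {T : List Bool → Prop} (hT : fat T) {F : Set ℝ} (hF : IsClosed F)
    (h : ∀ U : Set ℝ, IsOpen U → (h51K T ∩ U).Nonempty → ¬ (h51K T ∩ U ⊆ F))
    {σ : List Bool} (hσ : T σ) : ∃ τ : List Bool, σ <+: τ ∧ T τ ∧ ¬ h51F F τ := by
  by_contra hcon
  push Not at hcon
  set U : Set ℝ := Ioo (h51v σ) (h51v σ + h51l σ) with hU
  refine h U isOpen_Ioo ?_ ?_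
  · have hpos := h51_volume_pos hT hσ
    by_contra hne
    rw [Set.not_nonempty_iff_eq_empty] at hne
    apply hpos
    refine measure_mono_null (t := ({h51v σ, h51v σ + h51l σ} : Set ℝ)) ?_ ?_
    · rintro y ⟨hyK, hyI⟩
      simp only [h51I, mem_Icc] at hyI
      simp only [mem_insert_iff, mem_singleton_iff]
      by_contra hy
      push Not at hy
      have : y ∈ h51K T ∩ U := ⟨hyK, lt_of_le_of_ne hyI.1 (Ne.symm hy.1),
        lt_of_le_of_ne hyI.2 hy.2⟩
      rw [hne] at this
      exact this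
    · exact (Set.toFinite _).measure_zero _
  · rintro y ⟨hyK, hyU⟩
    rw [← hF.closure_eq]
    rw [Metric.mem_closure_iff]
    intro ε hε
    obtain ⟨m, hm⟩ := exists_pow_lt_of_lt_one hε (by norm_num : (1 / 2 : ℝ) < 1)
    have := mem_iInter.1 hyK (m + σ.length)
    simp only [h51C, mem_iUnion] at this
    obtain ⟨τ, ⟨hl, _, ht⟩, hyτ⟩ := this
    have hpre : τ.take σ.length <+: τ := List.take_prefix _ τ
    have hst : τ.take σ.length = σ := by
      by_contra hne
      have hlen : (τ.take σ.length).length = σ.length := by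
        rw [List.length_take]; omega
      have hy' := h51_I_mono hpre hyτ
      simp only [h51I, mem_Icc] at hy'
      simp only [hU, mem_Ioo] at hyU
      rcases h51_disj hlen hne with h | h
      · linarith [hy'.2, hyU.1]
      · linarith [hy'.1, hyU.2]
    rw [hst] at hpre
    obtain ⟨x, hx, hxF⟩ := hcon τ hpre ht
    refine ⟨h51beta x, hxF, ?_⟩
    rw [Real.dist_eq]
    have h1 := h51_I_diam hyτ (h51_mem_I hx)
    rw [hl] at h1
    refine lt_of_le_of_lt h1 (lt_of_le_of_lt ?_ hm)
    exact pow_le_pow_of_le_one (by norm_num) (by norm_num) (by omega)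

end

theorem rStmt_of_val (h : Val Prop) : RStmt := by
  intro E hE01 hE
  have hname : IsSetName fun x : ℕ → Prop => h51beta x ∈ E := by
    rintro x y ⟨hxy, hx⟩
    have : x = y := by
      funext n
      simp only [iInf_Prop_eq] at hxy
      exact propext ⟨(hxy n).1, (hxy n).2⟩
    rw [← this]
    exact hx
  have hfat : fatPM fun x : ℕ → Prop => h51beta x ∈ E := by
    unfold fatPM
    simp only [iInf_Prop_eq]
    intro P hP
    obtain ⟨F, hFc, hEF, hFn⟩ := hE (fun n => h51K (P n)) fun n => h51_fatR (hP n)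
    simp only [iSup_Prop_eq]
    refine ⟨fun k => h51F (F k), ⟨fun k => h51F_pruned (F k), ?_⟩, ?_⟩
    · unfold covV
      simp only [iInf_Prop_eq, iSup_Prop_eq]
      intro x hx
      obtain ⟨k, hk⟩ := mem_iUnion.1 (hEF hx)
      refine ⟨k, ?_⟩
      unfold memV
      simp only [iInf_Prop_eq]
      exact fun σ hσ => ⟨x, hσ, hk⟩
    · intro k n
      unfold nwdV
      simp only [iInf_Prop_eq, iSup_Prop_eq]
      intro σ hσ
      obtain ⟨τ, h1, h2, h3⟩ := h51_nwd (hP n) (hFc k) (hFn k n) hσ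
      exact ⟨τ, h1, h2, h3⟩
  have hv : nullCov fun x : ℕ → Prop => h51beta x ∈ E := by
    unfold Val at h
    simp only [iInf_Prop_eq] at h
    exact h _ hname hfat
  unfold nullCov at hv
  simp only [iInf_Prop_eq, iSup_Prop_eq] at hv
  obtain ⟨F, hF, hcov⟩ := hv
  refine ⟨fun m => h51K (F m), fun m => ⟨h51K_closed _, ?_⟩, ?_⟩
  · have hn := (h51_nullV_iff _).1 (hF m).2
    have hle : ∀ k : ℕ, volume (h51K (F m)) ≤ ENNReal.ofReal ((1 / 2 : ℝ) ^ k) := by
      intro k
      obtain ⟨n, G, hG, hGF⟩ := hn k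
      have hsub : h51K (F m) ⊆ ⋃ τ ∈ G.filter fun τ => τ.length = n, h51I τ := by
        intro y hy
        have := mem_iInter.1 hy n
        simp only [h51C, mem_iUnion] at this
        obtain ⟨τ, ⟨hl, _, ht⟩, hyτ⟩ := this
        simp only [mem_iUnion]
        refine ⟨τ, ?_, hyτ⟩
        rw [Finset.mem_filter]
        refine ⟨?_, hl⟩
        by_contra hτ
        exact hGF τ ⟨hl, hτ⟩ ht
      refine (measure_mono hsub).trans ((measure_biUnion_finset_le _ _).trans ?_)
      have hc : ∀ τ ∈ G.filter fun τ => τ.length = n, volume (h51I τ) =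
          ENNReal.ofReal ((1 / 2 : ℝ) ^ n) := by
        intro τ hτ
        rw [h51_volume_I]
        unfold h51l
        rw [(Finset.mem_filter.1 hτ).2]
      rw [Finset.sum_congr rfl hc, Finset.sum_const, nsmul_eq_mul]
      rw [← ENNReal.ofReal_natCast, ← ENNReal.ofReal_mul (by positivity)]
      refine ENNReal.ofReal_le_ofReal ?_
      have hcard : ((G.filter fun τ => τ.length = n).card : ℝ) ≤ G.card := by
        exact_mod_cast Finset.card_filter_le _ _
      have hG' : (G.card : ℝ) * 2 ^ k ≤ 2 ^ n := by exact_mod_cast hG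
      have e1 : ((1 / 2 : ℝ) ^ n) * 2 ^ n = 1 := by
        rw [← mul_pow]; norm_num
      have e2 : ((1 / 2 : ℝ) ^ k) * 2 ^ k = 1 := by
        rw [← mul_pow]; norm_num
      have p3 : (0 : ℝ) ≤ (1 / 2 : ℝ) ^ k := by positivity
      have p4 : (0 : ℝ) ≤ (1 / 2 : ℝ) ^ n := by positivity
      calc ((G.filter fun τ => τ.length = n).card : ℝ) * (1 / 2 : ℝ) ^ n
          ≤ (G.card : ℝ) * (1 / 2 : ℝ) ^ n := mul_le_mul_of_nonneg_right hcard p4
        _ = ((G.card : ℝ) * 2 ^ k) * ((1 / 2 : ℝ) ^ n * (1 / 2 : ℝ) ^ k) := by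
            rw [show ((G.card : ℝ) * 2 ^ k) * ((1 / 2 : ℝ) ^ n * (1 / 2 : ℝ) ^ k) =
              (G.card : ℝ) * (1 / 2 : ℝ) ^ n * ((1 / 2 : ℝ) ^ k * 2 ^ k) by ring, e2, mul_one]
        _ ≤ 2 ^ n * ((1 / 2 : ℝ) ^ n * (1 / 2 : ℝ) ^ k) :=
            mul_le_mul_of_nonneg_right hG' (mul_nonneg p4 p3)
        _ = (1 / 2 : ℝ) ^ k * ((1 / 2 : ℝ) ^ n * 2 ^ n) := by ring
        _ = (1 / 2 : ℝ) ^ k := by rw [e1, mul_one]
    have hlim : Filter.Tendsto (fun k : ℕ => ENNReal.ofReal ((1 / 2 : ℝ) ^ k)) Filter.atTop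
        (nhds 0) := by
      have := ENNReal.tendsto_ofReal (tendsto_pow_atTop_nhds_zero_of_lt_one
        (r := (1 / 2 : ℝ)) (by norm_num) (by norm_num))
      simpa using this
    exact le_antisymm (ge_of_tendsto' hlim hle) bot_le
  · intro y hy
    obtain ⟨x, rfl⟩ := h51_surj (hE01 hy)
    unfold covV at hcov
    simp only [iInf_Prop_eq, iSup_Prop_eq] at hcov
    obtain ⟨k, hk⟩ := hcov x hy
    unfold memV at hk
    simp only [iInf_Prop_eq] at hk
    refine mem_iUnion.2 ⟨k, mem_iInter.2 fun m => ?_⟩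
    classical
    let σ : List Bool := List.ofFn fun i : Fin m => decide (x i)
    have hσl : σ.length = m := by simp [σ]
    have hσ : cyl x σ := by
      rw [h51_cyl_iff]
      intro i hi
      simp [σ]
    simp only [h51C, mem_iUnion]
    exact ⟨σ, ⟨hσl, List.nil_prefix, hk σ hσ⟩, h51_mem_I hσ⟩

end Pool.Agent.Helper33.HM
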